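import Mathlib
import Pool.Agent.Helper620.A7

set_option autoImplicit false

namespace Pool.Agent.Results.MP_06981f_nt.StableRestricted

/-- If `A` remains a basis after the removal of any finite set, then `A` has a restricted order. -/
theorem result :
    ∀ A : Set ℕ,
      (∀ F : Finset ℕ, ∃ h N : ℕ, ∀ n : ℕ, N ≤ n → ∃ s : Multiset ℕ,
        (∀ x ∈ s, x ∈ A ∧ x ∉ F) ∧ Multiset.card s ≤ h ∧ s.sum = n) →
      ∃ t N : ℕ, ∀ n : ℕ, N ≤ n → ∃ s : Finset ℕ,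
        (∀ x ∈ s, x ∈ A) ∧ s.card ≤ t ∧ ∑ x ∈ s, x = n := by
  intro A hA
  obtain ⟨h, N, hN⟩ := hA ∅
  have hA' : ∃ N : ℕ, ∀ n ≥ N, ∃ M : Multiset ℕ,
      M.card ≤ h ∧ (∀ a ∈ M, a ∈ A) ∧ M.sum = n := by
    refine ⟨N, fun n hn => ?_⟩
    obtain ⟨s, h1, h2, h3⟩ := hN n hn
    exact ⟨s, h2, fun a ha => (h1 a ha).1, h3⟩
  have hres := Helper620.RO.res_of_stable A (fun F => by
    obtain ⟨k, N, hN⟩ := hA F
    refine ⟨N, fun n hn => ?_⟩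
    obtain ⟨s, h1, _, h3⟩ := hN n hn
    exact ⟨s, h1, h3⟩)
  obtain ⟨N', hN'⟩ := Helper620.RO.main h (Helper620.RO.basis_pos hA') A hA' hres
  refine ⟨Helper620.RO.kap h (8 * Helper620.RO.dd h h), N', fun n hn => ?_⟩
  obtain ⟨s, h1, h2, h3⟩ := hN' n hn
  exact ⟨s, fun x hx => h1 hx, h2, h3⟩

end Pool.Agent.Results.MP_06981f_nt.StableRestricted
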